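import Mathlib

namespace Pool.Agent.Lib.MP_651af7_nt.TwoPl

open NumberField

/-- All places of a number field: infinite or finite. -/
abbrev Place (K : Type) [Field K] [NumberField K] : Type := InfinitePlace K ⊕ FinitePlace K

/-- The absolute value of a place (Mathlib normalisation: the usual modulus under an embedding
for an infinite place, `N(p) ^ (- ord_p)` for a finite place). -/
noncomputable def pabs {K : Type} [Field K] [NumberField K] : Place K → K → ℝ
  | Sum.inl v, y => v y
  | Sum.inr v, y => v y

/-- The weight of a place in the product formula: 1 or 2 for a real or complex place, 1 for a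
finite place (whose absolute value is already normalised). -/
noncomputable def pmult {K : Type} [Field K] [NumberField K] : Place K → ℕ
  | Sum.inl v => v.mult
  | Sum.inr _ => 1

/-- The value at `x` of the linear form with coefficient vector `a`. -/
def ev {k K : Type} [Field k] [Field K] [Algebra k K] {n : ℕ} (a : Fin (n + 1) → k)
    (x : Fin (n + 1) → K) : K :=
  ∑ j, algebraMap k K (a j) * x j

/-- The local height (relative to `K`) at the place `w` of the hyperplane `a = 0`. -/
noncomputable def lam {k K : Type} [Field k] [Field K] [NumberField K] [Algebra k K] {n : ℕ}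
    (w : Place K) (a : Fin (n + 1) → k) (x : Fin (n + 1) → K) : ℝ :=
  pmult w * Real.log ((⨆ j, pabs w (x j)) / pabs w (ev a x))

/-- The forms `L i`, `i ∈ I`, are in general position: any at most `n + 1` of them are linearly
independent. -/
def GenPos {k ι : Type} [Field k] {n : ℕ} (L : ι → Fin (n + 1) → k) (I : Finset ι) : Prop :=
  ∀ J ⊆ I, J.card ≤ n + 1 → LinearIndependent k fun j : J => L j

end Pool.Agent.Lib.MP_651af7_nt.TwoPl
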