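import Pool.Agent.Lib.MP_651af7_nt.TwoPl.Global

namespace Pool.Agent.Lib.MP_651af7_nt.TwoPl

open NumberField Module

lemma exists_bottom {ι : Type} [DecidableEq ι] (f : ι → ℝ) (I : Finset ι) (m : ℕ) :
    ∃ J ⊆ I, J.card = min I.card m ∧ ∀ i ∈ I, i ∉ J → ∀ j ∈ J, f j ≤ f i := by
  induction m with
  | zero => exact ⟨∅, Finset.empty_subset _, by simp, by simp⟩
  | succ m ih =>
    obtain ⟨J, hJ, hc, hmin⟩ := ih
    rcases (I \ J).eq_empty_or_nonempty with h | h
    · have hIJ : J = I := Finset.Subset.antisymm hJ (Finset.sdiff_eq_empty_iff_subset.mp h)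
      subst hIJ
      exact ⟨J, hJ, by omega, hmin⟩
    · obtain ⟨a, ha, hamin⟩ := (I \ J).exists_min_image f h
      rw [Finset.mem_sdiff] at ha
      have hlt : J.card < I.card :=
        Finset.card_lt_card ⟨hJ, fun h' => ha.2 (h' ha.1)⟩
      refine ⟨insert a J, Finset.insert_subset ha.1 hJ, ?_, fun i hi hiJ j hj => ?_⟩
      · rw [Finset.card_insert_of_notMem ha.2]
        omega
      · rw [Finset.mem_insert, not_or] at hiJ
        rcases Finset.mem_insert.mp hj with rfl | hj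
        · exact hamin i (Finset.mem_sdiff.mpr ⟨hi, hiJ.2⟩)
        · exact hmin i hi hiJ.2 j hj

lemma exists_flag {k : Type} [Field k] {n : ℕ} {α : Type} [Fintype α] [DecidableEq α]
    (A : α → Fin (n + 1) → k) (hA : Submodule.span k (Set.range A) = ⊤) (f : α → ℝ)
    (J : Finset α) (hJ : LinearIndepOn k A J) :
    ∃ B : Fin (n + 1) → α, LinearIndependent k (A ∘ B) ∧ Monotone (f ∘ B) ∧
      J ⊆ Finset.univ.image B := by
  classical
  obtain ⟨b, -, hJb, hsp, hb⟩ := exists_linearIndepOn_extension hJ (Set.subset_univ _)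
  have htop : ⊤ ≤ Submodule.span k (Set.range fun i : b => A i) := by
    rw [← hA, Submodule.span_le, ← Set.image_univ, ← Set.image_eq_range]
    exact hsp
  have hcard : Fintype.card b = n + 1 := by
    rw [← finrank_eq_card_basis (Basis.mk hb htop), finrank_fin_fun]
  let e : Fin (n + 1) ≃ b := (Fintype.equivFinOfCardEq hcard).symm
  let B0 : Fin (n + 1) → α := fun i => e i
  let σ := Tuple.sort (f ∘ B0)
  refine ⟨B0 ∘ σ, hb.comp (fun i => e (σ i)) (e.injective.comp σ.injective),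
    Tuple.monotone_sort (f ∘ B0), fun a ha => ?_⟩
  refine Finset.mem_image.mpr ⟨σ.symm (e.symm ⟨a, hJb ha⟩), Finset.mem_univ _, ?_⟩
  simp [B0]

lemma finrank_flag {k : Type} [Field k] {n : ℕ} {α : Type} [DecidableEq α]
    (A : α → Fin (n + 1) → k) (B : Fin (n + 1) → α) (hB : LinearIndependent k (A ∘ B))
    (s : Finset (Fin (n + 1))) :
    finrank k (Submodule.span k (A '' (s.image B : Finset α))) = s.card := by
  have h := finrank_span_eq_card (hB.comp (fun j : s => (j : Fin (n + 1))) Subtype.val_injective)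
  have e : Set.range ((A ∘ B) ∘ fun j : s => (j : Fin (n + 1))) = A '' (s.image B : Finset α) := by
    ext v
    simp
  rw [e] at h
  rw [h, Fintype.card_coe]

lemma flags_meet {k : Type} [Field k] {n : ℕ} {α : Type} [DecidableEq α]
    (A : α → Fin (n + 1) → k) (B B' : Fin (n + 1) → α) (hB : LinearIndependent k (A ∘ B))
    (hB' : LinearIndependent k (A ∘ B')) (i : Fin (n + 1)) :
    Submodule.span k (A '' ((Finset.Iic i).image B : Finset α)) ⊓
      Submodule.span k (A '' ((Finset.Iic i.rev).image B' : Finset α)) ≠ ⊥ := by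
  intro h
  have h1 := Submodule.finrank_sup_add_finrank_inf_eq
    (Submodule.span k (A '' ((Finset.Iic i).image B : Finset α)))
    (Submodule.span k (A '' ((Finset.Iic i.rev).image B' : Finset α)))
  rw [h, finrank_bot, finrank_flag A B hB, finrank_flag A B' hB', Fin.card_Iic, Fin.card_Iic,
    Fin.val_rev] at h1
  have h2 := Submodule.finrank_le (Submodule.span k (A '' ((Finset.Iic i).image B : Finset α)) ⊔
    Submodule.span k (A '' ((Finset.Iic i.rev).image B' : Finset α)))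
  rw [finrank_fin_fun] at h2
  have := i.isLt
  omega

lemma exists_integral_mem {k : Type} [Field k] [NumberField k] {n : ℕ}
    (W : Submodule k (Fin (n + 1) → k)) :
    ∃ M : Fin (n + 1) → k, M ≠ 0 ∧ (∀ j, IsIntegral ℤ (M j)) ∧ (W ≠ ⊥ → M ∈ W) := by
  by_cases hW : W = ⊥
  · exact ⟨1, one_ne_zero, fun _ => isIntegral_one, fun h => (h hW).elim⟩
  obtain ⟨M, hM, hM0⟩ := Submodule.exists_mem_ne_zero_of_ne_bot hW
  choose N hN0 hN using fun j => exists_nat_mul_integral (M j)
  refine ⟨((∏ j, N j : ℕ) : k) • M, smul_ne_zero ?_ hM0, fun j => ?_, fun _ => W.smul_mem _ hM⟩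
  · exact_mod_cast Finset.prod_ne_zero_iff.mpr fun j _ => hN0 j
  · rw [← Finset.prod_erase_mul _ _ (Finset.mem_univ j), Pi.smul_apply, smul_eq_mul, Nat.cast_mul,
      mul_assoc]
    refine IsIntegral.mul ?_ (hN j)
    exact_mod_cast isIntegral_algebraMap (R := ℤ) (A := k)
      (x := ((∏ i ∈ Finset.univ.erase j, N i : ℕ) : ℤ))

lemma span_lam_unif {k : Type} [Field k] [NumberField k] {n : ℕ} {α β : Type} [Fintype α]
    [Fintype β] (A : α → Fin (n + 1) → k) (M : β → Fin (n + 1) → k) :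
    ∃ C : ℝ, 0 ≤ C ∧ ∀ (P : Finset α) (b : β), M b ∈ Submodule.span k (A '' P) →
      ∀ (K : Type) [Field K] [NumberField K] [Algebra k K] (w : Place K)
      (x : Fin (n + 1) → K) (t : ℝ), 0 < t → ev (M b) x ≠ 0 →
      (∀ a ∈ P, pav w (ev (A a) x) ≤ t) →
      pmult w * Real.log ((⨆ j, pav w (x j)) / t) ≤ lam w (M b) x + C * finrank ℚ K := by
  classical
  have h : ∀ p : Finset α × β, ∃ C : ℝ, 0 ≤ C ∧ (M p.2 ∈ Submodule.span k (A '' p.1) →
      ∀ (K : Type) [Field K] [NumberField K] [Algebra k K] (w : Place K)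
      (x : Fin (n + 1) → K) (t : ℝ), 0 < t → ev (M p.2) x ≠ 0 →
      (∀ a ∈ p.1, pav w (ev (A a) x) ≤ t) →
      pmult w * Real.log ((⨆ j, pav w (x j)) / t) ≤ lam w (M p.2) x + C * finrank ℚ K) := by
    intro p
    by_cases hp : M p.2 ∈ Submodule.span k (A '' p.1)
    · obtain ⟨C, h0, hC⟩ := span_lam p.1 A (M p.2) hp
      exact ⟨C, h0, fun _ => hC⟩
    · exact ⟨0, le_rfl, fun h => (hp h).elim⟩
  choose C h0 hC using h
  refine ⟨∑ p, C p, Finset.sum_nonneg fun p _ => h0 p, fun P b hb K _ _ _ w x t ht hx hP => ?_⟩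
  have h1 := hC (P, b) hb K w x t ht hx hP
  have h2 : C (P, b) ≤ ∑ p, C p :=
    Finset.single_le_sum (f := C) (fun p _ => h0 p) (Finset.mem_univ _)
  have h3 := mul_le_mul_of_nonneg_right h2 (Nat.cast_nonneg (α := ℝ) (finrank ℚ K))
  linarith

end Pool.Agent.Lib.MP_651af7_nt.TwoPl
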