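import Pool.Agent.Lib.MP_651af7_nt.TwoPl.Local

namespace Pool.Agent.Lib.MP_651af7_nt.TwoPl

open NumberField Module

variable {K : Type} [Field K] [NumberField K]

lemma finite_sup {n : ℕ} (x : Fin (n + 1) → K) (hx : x ≠ 0) :
    (Function.mulSupport fun v : FinitePlace K => ⨆ j, v (x j)).Finite := by
  refine (Set.finite_iUnion fun j : {j // x j ≠ 0} =>
    FinitePlace.hasFiniteMulSupport j.2).subset fun v hv => ?_
  by_contra h
  simp only [Set.mem_iUnion, Function.mem_mulSupport, not_exists, not_not] at h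
  apply hv
  obtain ⟨i, hi⟩ := Function.ne_iff.mp hx
  refine le_antisymm (ciSup_le fun j => ?_) (Finite.le_ciSup_of_le i (h ⟨i, hi⟩).ge)
  rcases eq_or_ne (x j) 0 with hj | hj
  · rw [hj, map_zero]; exact zero_le_one
  · exact (h ⟨j, hj⟩).le

lemma ne_zero_of_ev {k : Type} [Field k] [Algebra k K] {n : ℕ} {M : Fin (n + 1) → k}
    {x : Fin (n + 1) → K} (h : ev M x ≠ 0) : x ≠ 0 := by
  rintro rfl
  simp [ev] at h

lemma le_sup (w : Place K) {n : ℕ} (x : Fin (n + 1) → K) (j : Fin (n + 1)) :
    pav w (x j) ≤ ⨆ j, pav w (x j) :=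
  Finite.le_ciSup_of_le (f := fun j => pav w (x j)) j le_rfl

lemma sup_pos (w : Place K) {n : ℕ} {x : Fin (n + 1) → K} (hx : x ≠ 0) :
    0 < ⨆ j, pav w (x j) := by
  obtain ⟨i, hi⟩ := Function.ne_iff.mp hx
  exact ((pav w).pos hi).trans_le (le_sup w x i)

lemma lam_eq {k : Type} [Field k] [Algebra k K] {n : ℕ} (w : Place K) (M : Fin (n + 1) → k)
    (x : Fin (n + 1) → K) :
    lam w M x = pmult w * Real.log ((⨆ j, pav w (x j)) / pav w (ev M x)) := by
  simp only [lam, pabs_eq]

lemma sup_smul (w : Place K) {n : ℕ} (x : Fin (n + 1) → K) (y : K) :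
    ⨆ j, pav w ((y⁻¹ • x) j) = (⨆ j, pav w (x j)) / pav w y := by
  simp only [Pi.smul_apply, smul_eq_mul, map_mul, map_inv₀]
  rw [← Real.mul_iSup_of_nonneg (inv_nonneg.mpr (apply_nonneg _ _)), div_eq_inv_mul]

/-- First main theorem bound for one hyperplane with integral coefficients and any finite set of
places. -/
lemma global_bound {k : Type} [Field k] [NumberField k] {n : ℕ} (M : Fin (n + 1) → k)
    (hM : ∀ j, IsIntegral ℤ (M j)) :
    ∃ C : ℝ, 0 ≤ C ∧ ∀ (K : Type) [Field K] [NumberField K] [Algebra k K] (x : Fin (n + 1) → K),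
      ev M x ≠ 0 → ∀ T : Finset (Place K),
        ∑ w ∈ T, lam w M x ≤ Height.logHeight x + C * finrank ℚ K := by
  classical
  set c : ℝ := 1 + ∑ j, house (M j) with hc
  have hc1 : 1 ≤ c := by
    have : 0 ≤ ∑ j, house (M j) := Finset.sum_nonneg fun j _ => house_nonneg _
    linarith
  refine ⟨Real.log c, Real.log_nonneg hc1, fun K _ _ _ x hx T => ?_⟩
  have hx0 := ne_zero_of_ev hx
  set y := ev M x with hy
  set g : Place K → ℝ := fun w => (⨆ j, pav w (x j)) / pav w y with hg
  have hgpos : ∀ w, 0 < g w := fun w => div_pos (sup_pos w hx0) ((pav w).pos hx)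
  have hx' : y⁻¹ • x ≠ 0 := smul_ne_zero (inv_ne_zero hx) hx0
  have hH : Height.mulHeight x =
      (∏ v : InfinitePlace K, g (Sum.inl v) ^ v.mult) * ∏ᶠ v : FinitePlace K, g (Sum.inr v) := by
    rw [← Height.mulHeight_smul_eq_mulHeight x (inv_ne_zero hx), mulHeight_eq hx']
    congr 1
    · exact Finset.prod_congr rfl fun v _ => congrArg (· ^ v.mult) (sup_smul (Sum.inl v) x y)
    · exact finprod_congr fun v => sup_smul (Sum.inr v) x y
  have hfin : (Function.mulSupport fun v : FinitePlace K => g (Sum.inr v)).Finite := by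
    have h := finite_sup _ hx'
    have e : (fun v : FinitePlace K => g (Sum.inr v)) =
        fun v : FinitePlace K => ⨆ j, v ((y⁻¹ • x) j) :=
      funext fun v => (sup_smul (Sum.inr v) x y).symm
    rw [e]
    exact h
  have hg1 : ∀ v : FinitePlace K, 1 ≤ g (Sum.inr v) := by
    intro v
    rw [hg, le_div_iff₀ ((pav _).pos hx), one_mul]
    obtain ⟨j, -, hj⟩ := IsNonarchimedean.finset_image_add_of_nonempty (f := v) (v.add_le)
      (fun j => algebraMap k K (M j) * x j) (Finset.univ_nonempty (α := Fin (n + 1)))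
    refine hj.trans ?_
    rw [map_mul]
    have h1 : v (algebraMap k K (M j)) ≤ 1 :=
      fin_le_one v _ ((hM j).map (IsScalarTower.toAlgHom ℤ k K))
    exact (mul_le_of_le_one_left (apply_nonneg _ _) h1).trans (le_sup (Sum.inr v) x j)
  have hg2 : ∀ v : InfinitePlace K, 1 ≤ g (Sum.inl v) * c := by
    intro v
    rw [hg, div_mul_eq_mul_div, le_div_iff₀ ((pav _).pos hx), one_mul]
    refine (AbsoluteValue.sum_le _ _ _).trans ?_
    calc ∑ j, pav (Sum.inl v) (algebraMap k K (M j) * x j)
        ≤ ∑ j, (⨆ j, pav (Sum.inl v) (x j)) * house (M j) := by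
          refine Finset.sum_le_sum fun j _ => ?_
          rw [map_mul, mul_comm]
          exact mul_le_mul (le_sup _ x j) (inf_le_house v _) (apply_nonneg _ _)
            (sup_pos _ hx0).le
      _ = (⨆ j, pav (Sum.inl v) (x j)) * ∑ j, house (M j) := by rw [Finset.mul_sum]
      _ ≤ _ := mul_le_mul_of_nonneg_left (by linarith) (sup_pos _ hx0).le
  have hL : ∑ v ∈ T.toLeft, lam (Sum.inl v) M x ≤
      Real.log (∏ v : InfinitePlace K, g (Sum.inl v) ^ v.mult) + Real.log c * finrank ℚ K := by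
    rw [Real.log_prod (fun v _ => (pow_pos (hgpos _) _).ne'), ← InfinitePlace.sum_mult_eq,
      Nat.cast_sum, Finset.mul_sum, ← Finset.sum_add_distrib]
    calc ∑ v ∈ T.toLeft, lam (Sum.inl v) M x
        ≤ ∑ v ∈ T.toLeft, (Real.log (g (Sum.inl v) ^ v.mult) + Real.log c * v.mult) := by
          refine Finset.sum_le_sum fun v _ => ?_
          rw [lam_eq, Real.log_pow]
          have : 0 ≤ Real.log c * v.mult := mul_nonneg (Real.log_nonneg hc1) (Nat.cast_nonneg _)
          change (v.mult : ℝ) * Real.log (g (Sum.inl v)) ≤ _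
          linarith
      _ ≤ _ := by
          refine Finset.sum_le_sum_of_subset_of_nonneg (Finset.subset_univ _) fun v _ _ => ?_
          rw [Real.log_pow, mul_comm (Real.log c), ← mul_add,
            ← Real.log_mul (hgpos _).ne' (by linarith)]
          exact mul_nonneg (Nat.cast_nonneg _) (Real.log_nonneg (hg2 v))
  have hR : ∑ v ∈ T.toRight, lam (Sum.inr v) M x ≤
      Real.log (∏ᶠ v : FinitePlace K, g (Sum.inr v)) := by
    have e : ∑ v ∈ T.toRight, lam (Sum.inr v) M x = Real.log (∏ v ∈ T.toRight, g (Sum.inr v)) := by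
      rw [Real.log_prod (fun v _ => (hgpos _).ne')]
      refine Finset.sum_congr rfl fun v _ => ?_
      rw [lam_eq]
      change ((1 : ℕ) : ℝ) * Real.log (g (Sum.inr v)) = _
      simp
    rw [e]
    refine Real.log_le_log (Finset.prod_pos fun v _ => hgpos _) ?_
    rw [finprod_eq_prod_of_mulSupport_subset (s := T.toRight ∪ hfin.toFinset) _
      (by intro w hw; simp only [Finset.coe_union, Set.Finite.coe_toFinset]; exact Or.inr hw)]
    exact Finset.prod_le_prod_of_subset_of_one_le Finset.subset_union_left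
      (fun v _ => (hgpos _).le) fun v _ _ => hg1 v
  have hP : 0 < ∏ᶠ v : FinitePlace K, g (Sum.inr v) :=
    zero_lt_one.trans_le (one_le_finprod hg1)
  rw [Finset.sum_sum_eq_sum_toLeft_add_sum_toRight, Height.logHeight_eq_log_mulHeight, hH,
    Real.log_mul (Finset.prod_pos fun v _ => pow_pos (hgpos _) _).ne' hP.ne']
  linarith

/-- Logarithmic form of `span_bound`. -/
lemma span_lam {k : Type} [Field k] [NumberField k] {n : ℕ} {α : Type} (P : Finset α)
    (A : α → Fin (n + 1) → k) (M : Fin (n + 1) → k) (hM : M ∈ Submodule.span k (A '' P)) :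
    ∃ C : ℝ, 0 ≤ C ∧ ∀ (K : Type) [Field K] [NumberField K] [Algebra k K] (w : Place K)
      (x : Fin (n + 1) → K) (t : ℝ), 0 < t → ev M x ≠ 0 → (∀ a ∈ P, pav w (ev (A a) x) ≤ t) →
      pmult w * Real.log ((⨆ j, pav w (x j)) / t) ≤ lam w M x + C * finrank ℚ K := by
  obtain ⟨C, hC1, hC⟩ := span_bound P A M hM
  refine ⟨Real.log C, Real.log_nonneg hC1, fun K _ _ _ w x t ht hx hP => ?_⟩
  have h := hC K w x t ht.le hP
  have h0 := (pav w).pos hx
  have hs := sup_pos w (ne_zero_of_ev hx)
  have h1 := Real.log_le_log (pow_pos h0 _) h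
  rw [Real.log_mul (by positivity) (by positivity), Real.log_pow, Real.log_pow, Real.log_pow] at h1
  rw [lam_eq, Real.log_div hs.ne' ht.ne', Real.log_div hs.ne' h0.ne']
  linarith

end Pool.Agent.Lib.MP_651af7_nt.TwoPl
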