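import Pool.Agent.Lib.MP_651af7_nt.TwoPl.Defs

namespace Pool.Agent.Lib.MP_651af7_nt.TwoPl

open NumberField Module

variable {K : Type} [Field K] [NumberField K]

/-- The absolute value of a place as a bundled absolute value. -/
noncomputable def pav : Place K → AbsoluteValue K ℝ
  | Sum.inl v => v.1
  | Sum.inr v => v.1

lemma pabs_eq (w : Place K) (y : K) : pabs w y = pav w y := by
  cases w <;> rfl

lemma pmult_pos (w : Place K) : 1 ≤ pmult w := by
  cases w with
  | inl v => exact v.mult_pos
  | inr v => exact le_rfl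

lemma pmult_le (w : Place K) : pmult w ≤ finrank ℚ K := by
  cases w with
  | inl v =>
    rw [← InfinitePlace.sum_mult_eq]
    exact Finset.single_le_sum (f := fun v : InfinitePlace K => v.mult)
      (fun _ _ => Nat.zero_le _) (Finset.mem_univ v)
  | inr v => exact finrank_pos

lemma fin_le_one (v : FinitePlace K) (y : K) (hy : IsIntegral ℤ y) : v y ≤ 1 := by
  rw [← FinitePlace.norm_embedding_eq]
  exact FinitePlace.norm_le_one K v.maximalIdeal ⟨y, hy⟩

lemma fin_nat_ge (v : FinitePlace K) (N : ℕ) (hN : N ≠ 0) :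
    1 ≤ v (N : K) * (N : ℝ) ^ finrank ℚ K := by
  classical
  have hN' : (N : K) ≠ 0 := by exact_mod_cast hN
  have h := prod_abs_eq_one (K := K) hN'
  have h1 : ∏ w : InfinitePlace K, w (N : K) ^ w.mult = (N : ℝ) ^ finrank ℚ K := by
    rw [← InfinitePlace.sum_mult_eq, ← Finset.prod_pow_eq_pow_sum]
    refine Finset.prod_congr rfl fun w _ => ?_
    rw [InfinitePlace.map_natCast]
  have hfin := FinitePlace.hasFiniteMulSupport hN'
  have h2 : ∏ᶠ w : FinitePlace K, w (N : K) ≤ v (N : K) := by
    rw [finprod_eq_prod_of_mulSupport_subset (s := insert v hfin.toFinset) _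
      (by intro w hw; simp only [Finset.coe_insert, Set.Finite.coe_toFinset]; exact Or.inr hw)]
    rw [← Finset.mul_prod_erase _ _ (Finset.mem_insert_self v _)]
    refine mul_le_of_le_one_right (apply_nonneg _ _) ?_
    refine Finset.prod_le_one (fun _ _ => apply_nonneg _ _) fun w _ => fin_le_one w _ ?_
    exact_mod_cast isIntegral_algebraMap (R := ℤ) (A := K) (x := (N : ℤ))
  rw [h1] at h
  rw [← h, mul_comm]
  exact mul_le_mul_of_nonneg_right h2 (by positivity)

lemma exists_nat_mul_integral {k : Type} [Field k] [NumberField k] (a : k) :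
    ∃ N : ℕ, N ≠ 0 ∧ IsIntegral ℤ ((N : k) * a) := by
  have halg : IsAlgebraic ℤ a :=
    (IsFractionRing.isAlgebraic_iff ℤ ℚ k).mpr (Algebra.IsAlgebraic.isAlgebraic a)
  obtain ⟨y, hy, hint⟩ := halg.exists_integral_multiple
  refine ⟨y.natAbs, Int.natAbs_ne_zero.mpr hy, ?_⟩
  rcases Int.natAbs_eq y with h | h
  · have : ((y.natAbs : ℕ) : k) = (y : k) := by
      conv_rhs => rw [h]
      simp
    rw [this]
    simpa [zsmul_eq_mul] using hint
  · have : ((y.natAbs : ℕ) : k) = -(y : k) := by
      conv_rhs => rw [h]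
      simp
    rw [this, neg_mul]
    simpa [zsmul_eq_mul] using hint.neg

lemma inf_le_house {k : Type} [Field k] [NumberField k] [Algebra k K] (v : InfinitePlace K)
    (a : k) : v (algebraMap k K a) ≤ house a := by
  rw [← InfinitePlace.norm_embedding_eq]
  exact norm_embedding_le_house a (v.embedding.comp (algebraMap k K))

/-- A constant of `k` is bounded at every place of every extension. -/
lemma const_bound {k : Type} [Field k] [NumberField k] (a : k) :
    ∃ C : ℝ, 1 ≤ C ∧ ∀ (K : Type) [Field K] [NumberField K] [Algebra k K] (w : Place K),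
      pav w (algebraMap k K a) ^ pmult w ≤ C ^ finrank ℚ K := by
  obtain ⟨N, hN, hint⟩ := exists_nat_mul_integral a
  have hN1 : (1 : ℝ) ≤ N := by exact_mod_cast Nat.one_le_iff_ne_zero.mpr hN
  refine ⟨max (N : ℝ) (house a), le_max_of_le_left hN1, fun K _ _ _ w => ?_⟩
  cases w with
  | inl v =>
    calc pav (Sum.inl v) (algebraMap k K a) ^ pmult (Sum.inl v : Place K)
        ≤ (max (N : ℝ) (house a)) ^ pmult (Sum.inl v : Place K) :=
          pow_le_pow_left₀ (apply_nonneg _ _) ((inf_le_house v a).trans (le_max_right _ _)) _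
      _ ≤ _ := pow_le_pow_right₀ (le_max_of_le_left hN1) (pmult_le _)
  | inr v =>
    have h1 := fin_nat_ge v N hN
    have h2 : v ((N : K) * algebraMap k K a) ≤ 1 := by
      refine fin_le_one v _ ?_
      have := hint.map (IsScalarTower.toAlgHom ℤ k K)
      simpa using this
    rw [map_mul] at h2
    have h3 : v (algebraMap k K a) ≤ (N : ℝ) ^ finrank ℚ K := by
      calc v (algebraMap k K a) = v (algebraMap k K a) * 1 := (mul_one _).symm
        _ ≤ v (algebraMap k K a) * (v (N : K) * (N : ℝ) ^ finrank ℚ K) :=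
          mul_le_mul_of_nonneg_left h1 (apply_nonneg _ _)
        _ = (v (N : K) * v (algebraMap k K a)) * (N : ℝ) ^ finrank ℚ K := by ring
        _ ≤ 1 * (N : ℝ) ^ finrank ℚ K := mul_le_mul_of_nonneg_right h2 (by positivity)
        _ = _ := one_mul _
    change v (algebraMap k K a) ^ 1 ≤ _
    rw [pow_one]
    exact h3.trans (pow_le_pow_left₀ (by positivity) (le_max_left _ _) _)

lemma ev_sum {k : Type} [Field k] [Algebra k K] {n : ℕ} {α : Type} (P : Finset α) (c : α → k)
    (A : α → Fin (n + 1) → k) (x : Fin (n + 1) → K) :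
    ev (∑ a ∈ P, c a • A a) x = ∑ a ∈ P, algebraMap k K (c a) * ev (A a) x := by
  simp only [ev, Finset.sum_apply, Pi.smul_apply, smul_eq_mul, map_sum, map_mul, Finset.sum_mul,
    Finset.mul_sum]
  rw [Finset.sum_comm]
  simp only [mul_assoc]

/-- A form in the span of forms that are small at `x` is small at `x`. -/
lemma span_bound {k : Type} [Field k] [NumberField k] {n : ℕ} {α : Type} (P : Finset α)
    (A : α → Fin (n + 1) → k) (M : Fin (n + 1) → k) (hM : M ∈ Submodule.span k (A '' P)) :
    ∃ C : ℝ, 1 ≤ C ∧ ∀ (K : Type) [Field K] [NumberField K] [Algebra k K] (w : Place K)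
      (x : Fin (n + 1) → K) (t : ℝ), 0 ≤ t → (∀ a ∈ P, pav w (ev (A a) x) ≤ t) →
      pav w (ev M x) ^ pmult w ≤ C ^ finrank ℚ K * t ^ pmult w := by
  classical
  obtain ⟨c, hc⟩ := (Submodule.mem_span_image_finset_iff_exists_fun' k).mp hM
  choose C hC1 hC using fun a : α => const_bound (c a)
  set D : ℝ := 1 + ∑ a ∈ P, C a with hD
  have hD1 : 1 ≤ D := by
    have : 0 ≤ ∑ a ∈ P, C a := Finset.sum_nonneg fun a _ => zero_le_one.trans (hC1 a)
    linarith
  have hCD : ∀ a ∈ P, C a ≤ D := fun a ha => by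
    have := Finset.single_le_sum (f := C) (fun a _ => zero_le_one.trans (hC1 a)) ha
    linarith
  have hP1 : (1 : ℝ) ≤ P.card + 1 := by
    have : (0 : ℝ) ≤ P.card := Nat.cast_nonneg _
    linarith
  refine ⟨(P.card + 1) * D, one_le_mul_of_one_le_of_one_le hP1 hD1, fun K _ _ _ w x t ht hx => ?_⟩
  rw [← hc, ev_sum]
  rcases P.eq_empty_or_nonempty with hP | hP
  · subst hP
    simp only [Finset.sum_empty, map_zero]
    rw [zero_pow (Nat.one_le_iff_ne_zero.mp (pmult_pos w))]
    positivity
  obtain ⟨a0, ha0, hmax⟩ := P.exists_max_image (fun a => pav w (algebraMap k K (c a))) hP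
  have h1 : pav w (∑ a ∈ P, algebraMap k K (c a) * ev (A a) x) ≤
      (P.card + 1) * pav w (algebraMap k K (c a0)) * t := by
    refine (AbsoluteValue.sum_le _ _ _).trans ?_
    calc ∑ a ∈ P, pav w (algebraMap k K (c a) * ev (A a) x)
        ≤ ∑ _a ∈ P, pav w (algebraMap k K (c a0)) * t := by
          refine Finset.sum_le_sum fun a ha => ?_
          rw [map_mul]
          exact mul_le_mul (hmax a ha) (hx a ha) (apply_nonneg _ _) (apply_nonneg _ _)
      _ = P.card * (pav w (algebraMap k K (c a0)) * t) := by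
          rw [Finset.sum_const, nsmul_eq_mul]
      _ ≤ (P.card + 1) * (pav w (algebraMap k K (c a0)) * t) :=
          mul_le_mul_of_nonneg_right (by linarith) (mul_nonneg (apply_nonneg _ _) ht)
      _ = _ := by ring
  refine (pow_le_pow_left₀ (apply_nonneg _ _) h1 _).trans ?_
  rw [mul_pow, mul_pow, mul_pow]
  refine mul_le_mul_of_nonneg_right ?_ (by positivity)
  refine mul_le_mul (pow_le_pow_right₀ hP1 (pmult_le w)) ?_ (by positivity) (by positivity)
  exact (hC a0 K w).trans (pow_le_pow_left₀ (zero_le_one.trans (hC1 a0)) (hCD a0 ha0) _)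

end Pool.Agent.Lib.MP_651af7_nt.TwoPl
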