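import Pool.Agent.Lib.MP_651af7_nt.TwoPl.Flag

namespace Pool.Agent.Lib.MP_651af7_nt.TwoPl

open NumberField Module

/-- The given forms together with the coordinate forms. -/
def ext {k ι : Type} [Field k] {n : ℕ} (L : ι → Fin (n + 1) → k) :
    ι ⊕ Fin (n + 1) → Fin (n + 1) → k :=
  Sum.elim L fun j => Pi.single j 1

lemma ev_single {k K : Type} [Field k] [Field K] [Algebra k K] {n : ℕ} (j : Fin (n + 1))
    (x : Fin (n + 1) → K) : ev (Pi.single j (1 : k)) x = x j := by
  rw [ev, Finset.sum_eq_single j]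
  · simp
  · intro i _ hi
    simp [Pi.single_eq_of_ne hi]
  · simp

lemma span_coord {k ι : Type} [Field k] {n : ℕ} [DecidableEq ι] (L : ι → Fin (n + 1) → k) :
    Submodule.span k (ext L '' (Finset.univ.image Sum.inr : Finset (ι ⊕ Fin (n + 1)))) = ⊤ := by
  rw [← (Pi.basisFun k (Fin (n + 1))).span_eq]
  congr 1
  ext v
  simp [ext]

lemma span_ext {k ι : Type} [Field k] {n : ℕ} (L : ι → Fin (n + 1) → k) :
    Submodule.span k (Set.range (ext L)) = ⊤ := by
  classical
  rw [eq_top_iff, ← span_coord L]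
  exact Submodule.span_mono (Set.image_subset_range _ _)

lemma span_basis {k : Type} [Field k] {n : ℕ} {α : Type} [DecidableEq α]
    (A : α → Fin (n + 1) → k) (B : Fin (n + 1) → α) (hB : LinearIndependent k (A ∘ B)) :
    Submodule.span k (A '' (Finset.univ.image B : Finset α)) = ⊤ := by
  apply Submodule.eq_top_of_finrank_eq
  rw [finrank_flag A B hB, finrank_fin_fun, Finset.card_univ, Fintype.card_fin]

/-- At one place, a family in general position is dominated by an ordered basis. -/
lemma local_reduce {k : Type} [Field k] [NumberField k] {n : ℕ} {ι : Type} [Fintype ι]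
    (L : ι → Fin (n + 1) → k) :
    ∃ C : ℝ, 0 ≤ C ∧ ∀ (K : Type) [Field K] [NumberField K] [Algebra k K] (w : Place K)
      (x : Fin (n + 1) → K), (∀ a, ev (ext L a) x ≠ 0) → ∀ I : Finset ι, GenPos L I →
      ∃ B : Fin (n + 1) → ι ⊕ Fin (n + 1), LinearIndependent k (ext L ∘ B) ∧
        Monotone (fun j => pav w (ev (ext L (B j)) x)) ∧
        ∑ i ∈ I, lam w (L i) x ≤ ∑ j, lam w (ext L (B j)) x + C * finrank ℚ K := by
  classical
  obtain ⟨C, hC0, hC⟩ := span_lam_unif (ext L) (ext L)
  refine ⟨(n + 1 + Fintype.card ι) * C, by positivity, fun K _ _ _ w x hx I hI => ?_⟩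
  have hx0 : x ≠ 0 := ne_zero_of_ev (hx (Sum.inr 0))
  have hs := sup_pos w hx0
  have hCK : 0 ≤ C * finrank ℚ K := by positivity
  obtain ⟨J, hJI, hJc, hJ⟩ := exists_bottom (fun i => pav w (ev (L i) x)) I (n + 1)
  have hJli : LinearIndepOn k (ext L) (J.image Sum.inl : Finset (ι ⊕ Fin (n + 1))) := by
    rw [Finset.coe_image]
    refine LinearIndepOn.image_of_comp Sum.inl (ext L) ?_
    exact hI J hJI (by omega)
  obtain ⟨B, hB, hmono, hJB⟩ := exists_flag (ext L) (span_ext L)
    (fun a => pav w (ev (ext L a) x)) _ hJli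
  have hBinj : Function.Injective B := Function.Injective.of_comp hB.injective
  refine ⟨B, hB, hmono, ?_⟩
  have hlow : ∀ a, 0 ≤ lam w (ext L a) x + C * finrank ℚ K := by
    intro a
    have h := hC (Finset.univ.image Sum.inr) a (by rw [span_coord]; trivial) K w x _ hs (hx a)
      (by
        intro b hb
        obtain ⟨j, -, rfl⟩ := Finset.mem_image.mp hb
        change pav w (ev (Pi.single j (1 : k)) x) ≤ _
        rw [ev_single]
        exact le_sup w x j)
    rwa [div_self hs.ne', Real.log_one, mul_zero] at h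
  have h1 : ∑ i ∈ J, lam w (L i) x ≤ ∑ j, lam w (ext L (B j)) x + (n + 1) * (C * finrank ℚ K) := by
    calc ∑ i ∈ J, lam w (L i) x ≤ ∑ i ∈ J, (lam w (ext L (Sum.inl i)) x + C * finrank ℚ K) :=
          Finset.sum_le_sum fun i _ => le_add_of_nonneg_right hCK
      _ = ∑ a ∈ J.image Sum.inl, (lam w (ext L a) x + C * finrank ℚ K) := by
          rw [Finset.sum_image fun _ _ _ _ h => Sum.inl_injective h]
      _ ≤ ∑ a ∈ Finset.univ.image B, (lam w (ext L a) x + C * finrank ℚ K) :=
          Finset.sum_le_sum_of_subset_of_nonneg hJB fun a _ _ => hlow a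
      _ = _ := by
          rw [Finset.sum_image fun _ _ _ _ h => hBinj h, Finset.sum_add_distrib, Finset.sum_const,
            Finset.card_univ, Fintype.card_fin, nsmul_eq_mul]
          push_cast
          ring
  have h2 : ∀ i ∈ I \ J, lam w (L i) x ≤ C * finrank ℚ K := by
    intro i hi
    rw [Finset.mem_sdiff] at hi
    have hlt : J.card < I.card := Finset.card_lt_card ⟨hJI, fun h' => hi.2 (h' hi.1)⟩
    have heq : (J.image Sum.inl : Finset (ι ⊕ Fin (n + 1))) = Finset.univ.image B := by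
      refine Finset.eq_of_subset_of_card_le hJB ?_
      rw [Finset.card_image_of_injective _ hBinj,
        Finset.card_image_of_injective _ Sum.inl_injective, Finset.card_univ, Fintype.card_fin]
      omega
    obtain ⟨j, hj⟩ := exists_eq_ciSup_of_finite (f := fun j => pav w (x j))
    have h := hC (Finset.univ.image B) (Sum.inr j) (by rw [span_basis _ B hB]; trivial) K w x
      (pav w (ev (L i) x)) ((pav w).pos (hx (Sum.inl i))) (hx _)
      (by
        intro b hb
        rw [← heq] at hb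
        obtain ⟨l, hl, rfl⟩ := Finset.mem_image.mp hb
        exact hJ i hi.1 hi.2 l hl)
    have e : lam w (ext L (Sum.inr j)) x = 0 := by
      rw [lam_eq]
      change _ * Real.log (_ / pav w (ev (Pi.single j (1 : k)) x)) = 0
      rw [ev_single, hj, div_self hs.ne', Real.log_one, mul_zero]
    rw [e, zero_add, ← lam_eq] at h
    exact h
  have h3 : ∑ i ∈ I \ J, lam w (L i) x ≤ Fintype.card ι * (C * finrank ℚ K) := by
    refine (Finset.sum_le_card_nsmul _ _ _ h2).trans ?_
    rw [nsmul_eq_mul]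
    exact mul_le_mul_of_nonneg_right (by exact_mod_cast Finset.card_le_univ _) hCK
  rw [← Finset.sum_sdiff hJI]
  linarith

theorem two_places (k : Type) [Field k] [NumberField k] (n : ℕ) (ι : Type) [Fintype ι]
    (L : ι → Fin (n + 1) → k) (hL : ∀ i, L i ≠ 0) :
    ∃ (Z : Finset (Fin (n + 1) → k)) (C : ℝ), (∀ M ∈ Z, M ≠ 0) ∧ (∀ i, L i ∈ Z) ∧
      ∀ (K : Type) [Field K] [NumberField K] [Algebra k K] (x : Fin (n + 1) → K),
        (∀ M ∈ Z, ev M x ≠ 0) → ∀ T : Finset (Place K), T.card ≤ 2 →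
        ∀ I : Place K → Finset ι, (∀ w ∈ T, GenPos L (I w)) →
          ∑ w ∈ T, ∑ i ∈ I w, lam w (L i) x ≤
            (n + 1) * Height.logHeight x + C * finrank ℚ K := by
  classical
  choose M hM0 hMi hM using fun p : Finset (ι ⊕ Fin (n + 1)) × Finset (ι ⊕ Fin (n + 1)) =>
    exists_integral_mem (Submodule.span k (ext L '' p.1) ⊓ Submodule.span k (ext L '' p.2))
  have hM' : ∀ P Q : Finset (ι ⊕ Fin (n + 1)),
      Submodule.span k (ext L '' P) ⊓ Submodule.span k (ext L '' Q) ≠ ⊥ →
      M (P, Q) ∈ Submodule.span k (ext L '' P) ∧ M (P, Q) ∈ Submodule.span k (ext L '' Q) :=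
    fun P Q h => Submodule.mem_inf.mp (hM (P, Q) h)
  obtain ⟨C1, h1, hC1⟩ := local_reduce L
  obtain ⟨C2, h2, hC2⟩ := span_lam_unif (ext L) M
  choose G hG0 hG using fun p => global_bound (M p) (hMi p)
  have hG1 : 0 ≤ ∑ p, G p := Finset.sum_nonneg fun p _ => hG0 p
  refine ⟨Finset.univ.image (ext L) ∪ Finset.univ.image M,
    2 * C1 + (n + 1) * (2 * C2 + ∑ p, G p), fun a ha => ?_, fun i => ?_,
    fun K _ _ _ x hx T hT I hI => ?_⟩
  · rcases Finset.mem_union.mp ha with h | h
    · obtain ⟨b, -, rfl⟩ := Finset.mem_image.mp h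
      cases b with
      | inl i => exact hL i
      | inr j => exact Pi.single_ne_zero_iff.mpr one_ne_zero
    · obtain ⟨p, -, rfl⟩ := Finset.mem_image.mp h
      exact hM0 p
  · exact Finset.mem_union_left _ (Finset.mem_image.mpr ⟨Sum.inl i, Finset.mem_univ _, rfl⟩)
  have hxA : ∀ a, ev (ext L a) x ≠ 0 := fun a =>
    hx _ (Finset.mem_union_left _ (Finset.mem_image_of_mem _ (Finset.mem_univ a)))
  have hxM : ∀ p, ev (M p) x ≠ 0 := fun p =>
    hx _ (Finset.mem_union_right _ (Finset.mem_image_of_mem _ (Finset.mem_univ p)))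
  have hd : (0 : ℝ) ≤ finrank ℚ K := Nat.cast_nonneg _
  have hh : 0 ≤ Height.logHeight x := Height.logHeight_nonneg x
  have hglob : ∀ p (T : Finset (Place K)),
      ∑ w ∈ T, lam w (M p) x ≤ Height.logHeight x + (∑ p, G p) * finrank ℚ K := by
    intro p T
    have h3 := hG p K x (hxM p) T
    have h4 : G p ≤ ∑ p, G p := Finset.single_le_sum (f := G) (fun p _ => hG0 p) (Finset.mem_univ _)
    have h5 := mul_le_mul_of_nonneg_right h4 hd
    linarith
  have hstep : ∀ (w : Place K) (B : Fin (n + 1) → ι ⊕ Fin (n + 1)),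
      Monotone (fun j => pav w (ev (ext L (B j)) x)) → ∀ (i : Fin (n + 1)) p,
      M p ∈ Submodule.span k (ext L '' ((Finset.Iic i).image B : Finset _)) →
      lam w (ext L (B i)) x ≤ lam w (M p) x + C2 * finrank ℚ K := by
    intro w B hB i p hp
    rw [lam_eq w (ext L (B i))]
    refine hC2 _ p hp K w x _ ((pav w).pos (hxA _)) (hxM p) fun a ha => ?_
    obtain ⟨j, hj, rfl⟩ := Finset.mem_image.mp ha
    exact hB (Finset.mem_Iic.mp hj)
  have hn : (0 : ℝ) ≤ n + 1 := by positivity
  have e1 : 0 ≤ C1 * finrank ℚ K := mul_nonneg h1 hd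
  have e2 : 0 ≤ (n + 1) * (C2 * finrank ℚ K) := mul_nonneg hn (mul_nonneg h2 hd)
  have e3 : 0 ≤ (n + 1) * ((∑ p, G p) * finrank ℚ K) := mul_nonneg hn (mul_nonneg hG1 hd)
  have e4 : 0 ≤ (n + 1) * Height.logHeight x := mul_nonneg hn hh
  have hcases : T.card = 0 ∨ T.card = 1 ∨ T.card = 2 := by omega
  rcases hcases with h | h | h
  · rw [Finset.card_eq_zero.mp h, Finset.sum_empty]
    linarith
  · obtain ⟨w, rfl⟩ := Finset.card_eq_one.mp h
    obtain ⟨B, hB, hmono, hle⟩ := hC1 K w x hxA (I w) (hI w (Finset.mem_singleton_self w))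
    have h3 : ∀ i ∈ (Finset.univ : Finset (Fin (n + 1))), lam w (ext L (B i)) x ≤
        Height.logHeight x + (∑ p, G p) * finrank ℚ K + C2 * finrank ℚ K := by
      intro i _
      have h4 := hstep w B hmono i ((Finset.Iic i).image B, (Finset.Iic i.rev).image B)
        (hM' _ _ (flags_meet (ext L) B B hB hB i)).1
      have h5 := hglob ((Finset.Iic i).image B, (Finset.Iic i.rev).image B) {w}
      rw [Finset.sum_singleton] at h5
      linarith
    have h6 := Finset.sum_le_card_nsmul _ _ _ h3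
    rw [Finset.card_univ, Fintype.card_fin, nsmul_eq_mul] at h6
    push_cast at h6
    rw [Finset.sum_singleton]
    linarith
  · obtain ⟨w, w', hww, rfl⟩ := Finset.card_eq_two.mp h
    obtain ⟨B, hB, hmono, hle⟩ := hC1 K w x hxA (I w) (hI w (by simp))
    obtain ⟨B', hB', hmono', hle'⟩ := hC1 K w' x hxA (I w') (hI w' (by simp))
    have h3 : ∀ i ∈ (Finset.univ : Finset (Fin (n + 1))),
        lam w (ext L (B i)) x + lam w' (ext L (B' i.rev)) x ≤
        Height.logHeight x + (∑ p, G p) * finrank ℚ K + 2 * (C2 * finrank ℚ K) := by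
      intro i _
      have h4 := hstep w B hmono i ((Finset.Iic i).image B, (Finset.Iic i.rev).image B')
        (hM' _ _ (flags_meet (ext L) B B' hB hB' i)).1
      have h4' := hstep w' B' hmono' i.rev ((Finset.Iic i).image B, (Finset.Iic i.rev).image B')
        (hM' _ _ (flags_meet (ext L) B B' hB hB' i)).2
      have h5 := hglob ((Finset.Iic i).image B, (Finset.Iic i.rev).image B') {w, w'}
      rw [Finset.sum_pair hww] at h5
      linarith
    have h6 := Finset.sum_le_card_nsmul _ _ _ h3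
    rw [Finset.card_univ, Fintype.card_fin, nsmul_eq_mul, Finset.sum_add_distrib] at h6
    have h7 : ∑ i : Fin (n + 1), lam w' (ext L (B' i.rev)) x = ∑ i, lam w' (ext L (B' i)) x :=
      Equiv.sum_comp Fin.revPerm fun i => lam w' (ext L (B' i)) x
    push_cast at h6
    rw [Finset.sum_pair hww]
    linarith

end Pool.Agent.Lib.MP_651af7_nt.TwoPl
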