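import Pool.Agent.Lib.MP_651af7_nt.TwoPl.Main

open Pool.Agent.Lib.MP_651af7_nt.TwoPl in
/-- Vojta inequality for hyperplanes in projective space, at any two places of any extension
field, with no discriminant term and no epsilon. -/
theorem Pool.Agent.Lib.MP_651af7_nt.TwoPl.retired_result
    (k : Type) [Field k] [NumberField k] (n : ℕ) (ι : Type) [Fintype ι]
    (L : ι → Fin (n + 1) → k) (hL : ∀ i, L i ≠ 0) :
    ∃ (Z : Finset (Fin (n + 1) → k)) (C : ℝ), (∀ M ∈ Z, M ≠ 0) ∧ (∀ i, L i ∈ Z) ∧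
      ∀ (K : Type) [Field K] [NumberField K] [Algebra k K] (x : Fin (n + 1) → K),
        (∀ M ∈ Z, ev M x ≠ 0) → ∀ T : Finset (Place K), T.card ≤ 2 →
        ∀ I : Place K → Finset ι, (∀ w ∈ T, GenPos L (I w)) →
          ∑ w ∈ T, ∑ i ∈ I w, lam w (L i) x ≤
            (n + 1) * Height.logHeight x + C * Module.finrank ℚ K :=
  two_places k n ι L hL
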